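import Mathlib
import Pool.Agent.GBQ.Low

set_option autoImplicit false

/-!
# GBR / Low

The main term of the lower bound sieve without loss: the primes `p ∣ m` give the additional
factor `∏_{2 < p ∣ m} (1 - 1/p)⁻¹`.
-/

namespace Pool.Agent.GBR

open Finset Filter
open Pool.Agent.MT
open Pool.Agent.GBQ

/-- `∏ (1 - 1/p)` over the odd primes `p ≤ z` that divide `m` -/
noncomputable def AA (z m : ℕ) : ℝ := ∏ p ∈ (pr z).filter (fun p => p ∣ m ∧ p ≠ 2), (1 - 1 / (p : ℝ))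

theorem AA_eq (z m : ℕ) : AA z m = ∏ p ∈ pr z, (if p ∣ m ∧ p ≠ 2 then 1 - 1 / (p : ℝ) else 1) := by
  unfold AA
  rw [prod_filter]

theorem one_sub_pos {p : ℕ} (hp : p.Prime) : 0 < 1 - 1 / (p : ℝ) ∧ 1 - 1 / (p : ℝ) ≤ 1 := by
  have h1 : (1 : ℝ) < p := by exact_mod_cast hp.one_lt
  have h2 : 1 / (p : ℝ) < 1 := by
    rw [div_lt_one (by linarith)]
    exact h1
  have h3 : 0 ≤ 1 / (p : ℝ) := by positivity
  exact ⟨by linarith, by linarith⟩

theorem AA_pos (z m : ℕ) : 0 < AA z m := by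
  unfold AA
  refine prod_pos fun p hp => ?_
  rw [mem_filter] at hp
  exact (one_sub_pos (mem_pr.1 hp.1).2).1

theorem AA_le_one (z m : ℕ) : AA z m ≤ 1 := by
  unfold AA
  refine prod_le_one (fun p hp => ?_) fun p hp => ?_
  · rw [mem_filter] at hp
    exact (one_sub_pos (mem_pr.1 hp.1).2).1.le
  · rw [mem_filter] at hp
    exact (one_sub_pos (mem_pr.1 hp.1).2).2

/-- if `p ∣ m` and `p ∤ n`, only the roots of `2` are removed -/
theorem lowOm_sub_sq {z m n p : ℕ} (hp : p.Prime) (h : p ≤ z → ¬ (p ∣ n ∧ p ∣ m)) (hm : p ∣ m) :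
    lowOm z m n p ⊆ lowSq p := by
  have := Fact.mk hp
  intro c hc
  rw [low_mem hp] at hc
  unfold lowSq
  rw [mem_filter, mem_range]
  refine ⟨hc.1, hc.2.1, ?_⟩
  rcases hc.2.2 with h1 | ⟨h1, h2⟩
  · exact h1
  · exfalso
    have h3 : (m : ZMod p) = 0 := (ZMod.natCast_eq_zero_iff m p).2 hm
    rw [h3, zero_mul] at h2
    exact h h1 ⟨(ZMod.natCast_eq_zero_iff n p).1 h2.symm, hm⟩

/-- the number of classes with the additional one for the odd `p ∣ m` -/
noncomputable def rr (z m n p : ℕ) : ℕ :=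
  (lowOm z m n p).card + (if p ∣ m ∧ p ≠ 2 then 1 else 0)

theorem rr_le_three {z m n p : ℕ} (hp : p.Prime) (h : p ≤ z → ¬ (p ∣ n ∧ p ∣ m)) :
    rr z m n p ≤ 3 := by
  unfold rr
  split_ifs with h1
  · have h2 := card_le_card (lowOm_sub_sq hp h h1.1)
    have h3 := lowSq_card_le hp
    omega
  · exact lowOm_card_le hp h

theorem rr_le_one {z m n p : ℕ} (hp : p.Prime) (h : p ≤ z → ¬ (p ∣ n ∧ p ∣ m))
    (h8 : ¬ (p % 8 = 1 ∨ p % 8 = 7)) : rr z m n p ≤ 1 := by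
  unfold rr
  split_ifs with h1
  · have h2 := card_le_card (lowOm_sub_sq hp h h1.1)
    rw [lowSq_empty hp h8, card_empty] at h2
    omega
  · exact lowOm_card_le_one hp h h8

theorem rr_two {z m n : ℕ} (h : (n + m) % 2 = 1) : rr z m n 2 = 0 := by
  unfold rr
  rw [lowOm_two h, if_neg (fun h => h.2 rfl)]

/-- comparison of the products -/
theorem rr_prod {z m n : ℕ} (h : ∀ p ∈ pr z, ¬ (p ∣ n ∧ p ∣ m)) :
    ∏ p ∈ pr z, (1 - (rr z m n p : ℝ) / ((p : ℝ) - 1)) ≤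
      (∏ p ∈ pr z, (1 - ((lowOm z m n p).card : ℝ) / ((p : ℝ) - 1))) * AA z m := by
  rw [AA_eq, ← prod_mul_distrib]
  refine prod_le_prod (fun p hp => ?_) fun p hp => ?_
  · have hpp := (mem_pr.1 hp).2
    have hp1 : (1 : ℝ) < p := by exact_mod_cast hpp.one_lt
    rw [sub_nonneg, div_le_one (by linarith)]
    by_cases h8 : p % 8 = 1 ∨ p % 8 = 7
    · have h7 := W8_seven_le hpp h8
      have h9 := rr_le_three (z := z) (m := m) (n := n) hpp (fun _ => h p hp)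
      have h10 : (rr z m n p : ℝ) ≤ 3 := by exact_mod_cast h9
      have h11 : (7 : ℝ) ≤ p := by exact_mod_cast h7
      linarith
    · have h9 := rr_le_one (z := z) (m := m) (n := n) hpp (fun _ => h p hp) h8
      have h10 : (rr z m n p : ℝ) ≤ 1 := by exact_mod_cast h9
      have h11 : (2 : ℝ) ≤ p := by exact_mod_cast hpp.two_le
      linarith
  · have hpp := (mem_pr.1 hp).2
    have hp1 : (1 : ℝ) < p := by exact_mod_cast hpp.one_lt
    unfold rr
    by_cases h1 : p ∣ m ∧ p ≠ 2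
    · rw [if_pos h1, if_pos h1]
      push_cast
      have hr : (0 : ℝ) ≤ ((lowOm z m n p).card : ℝ) := Nat.cast_nonneg _
      obtain ⟨r, hrd⟩ : ∃ r : ℝ, r = ((lowOm z m n p).card : ℝ) := ⟨_, rfl⟩
      obtain ⟨x, hxd⟩ : ∃ x : ℝ, x = (p : ℝ) - 1 := ⟨_, rfl⟩
      rw [← hrd] at hr ⊢
      have hx : 0 < x := by rw [hxd]; linarith
      have hp' : (p : ℝ) = x + 1 := by rw [hxd]; ring
      rw [← hxd, hp']
      have e : (1 - r / x) * (1 - 1 / (x + 1)) - (1 - (r + 1) / x) = (r + 1) / (x * (x + 1)) := by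
        field_simp
        ring
      have e2 : 0 ≤ (r + 1) / (x * (x + 1)) := by positivity
      linarith
    · rw [if_neg h1, if_neg h1, add_zero, mul_one]

theorem W8_prod_nonneg (z K : ℕ) : 0 ≤ ∏ p ∈ W8 z K, (1 - g8 p) := by
  refine prod_nonneg fun p hp => ?_
  unfold W8 at hp
  rw [mem_filter] at hp
  have h7 := W8_seven_le hp.2.1 hp.2.2.2
  have h11 : (7 : ℝ) ≤ p := by exact_mod_cast h7
  unfold g8
  rw [if_pos hp.2.2.2, sub_nonneg, div_le_one (by linarith)]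
  linarith

theorem low_K (h1 : St_Sieve) (h2 : St_Main) (h3 : St_Local) (h4 : St_Mom) (h5 : St_Bad)
    (η : ℝ → ℝ) (hη : IsWt η) : ∃ (c₁ : ℝ) (C z₀ : ℕ), 0 < c₁ ∧ 2 ≤ z₀ ∧
    ∀ B : ℕ, ∀ᶠ K : ℕ in atTop, ∀ z : ℕ, z₀ ≤ z → (z : ℝ) ≤ Real.log K ^ B →
    ∃ (c : ℕ → ℝ) (y : ℕ), (y : ℝ) ≤ (K : ℝ) ^ (1 / 2 : ℝ) ∧
      ∑ k ∈ range (K + 1), Tw η K z c k ^ 2 ≤ K * Real.log K ^ C ∧
      (∀ k : ℕ, 2 ≤ k → k ≤ K → Rough z (k ^ 2 - 2) →
        (∀ p : ℕ, p.Prime → z < p → p ≤ y → ¬ p ^ 2 ∣ k ^ 2 - 2) →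
        ∑ d ∈ (k ^ 2 - 2).divisors, c d ≤ C ∧
        (0 < ∑ d ∈ (k ^ 2 - 2).divisors, c d → Nat.IsAtMostAlmostPrime 5 (k ^ 2 - 2))) ∧
      ∀ m n : ℕ, (∀ k ≤ K, m * k ≤ n) → (∀ p ∈ pr z, ¬ (p ∣ n ∧ p ∣ m)) →
        (n + m) % 2 = 1 → c₁ * K / Real.log K ≤ AA z m *
          ∑ k ∈ range (K + 1), Tw η K z c k * LamS z (n - m * k) := by
  obtain ⟨c₀, δ, Cs, zs, Ks, hc₀, hδ, hS⟩ := h1
  obtain ⟨cl, hcl, hL⟩ := h3
  obtain ⟨Cm, hM⟩ := h4 Cs
  obtain ⟨Cb, hB⟩ := low_badcard h5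
  refine ⟨c₀ * cl / 40, max Cs (Cm + 3), max 2 zs, by positivity, le_max_left _ _, fun B => ?_⟩
  filter_upwards [h2 η hη (B + 2) B Cs, psi0_lower η hη, eventually_ge_atTop (max 16 Ks),
    low_log_ge (max 1 (max Cm (40 / (c₀ * cl)))), low_growth (2 * B) 1,
    low_growth (2 * B + Cm + 7) (8 * Cb * Cm), low_logpow_le B δ hδ]
    with K hmain hpsi hKbig hlog hg1 hg2 hgd
  intro z hz0 hzB
  have hz2 : 2 ≤ z := (le_max_left _ _).trans hz0
  have hzs : zs ≤ z := (le_max_right _ _).trans hz0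
  have hK16 : 16 ≤ K := (le_max_left _ _).trans hKbig
  have hKs : Ks ≤ K := (le_max_right _ _).trans hKbig
  have hL1 : 1 ≤ Real.log K := (le_max_left _ _).trans hlog
  have hLCm : (Cm : ℝ) ≤ Real.log K := ((le_max_left _ _).trans (le_max_right _ _)).trans hlog
  have hL40 : 40 / (c₀ * cl) ≤ Real.log K :=
    ((le_max_right _ _).trans (le_max_right _ _)).trans hlog
  have hK0 : (0 : ℝ) < K := by exact_mod_cast (by omega : 0 < K)
  have hK1 : (1 : ℝ) ≤ K := by exact_mod_cast (by omega : 1 ≤ K)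
  have hsqrt : Real.sqrt K ≤ K := by
    have hss : Real.sqrt K * Real.sqrt K = K := Real.mul_self_sqrt hK0.le
    have : 1 ≤ Real.sqrt K := Real.one_le_sqrt.2 hK1
    nlinarith
  have hzz : z * z ≤ K := by
    have h6 : ((z * z : ℕ) : ℝ) ≤ K := by
      push_cast
      calc (z : ℝ) * z ≤ Real.log K ^ B * Real.log K ^ B :=
            mul_le_mul hzB hzB (Nat.cast_nonneg z) (by positivity)
        _ = 1 * Real.log K ^ (2 * B) := by rw [one_mul, ← pow_add, two_mul]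
        _ ≤ Real.sqrt K := hg1
        _ ≤ K := hsqrt
    exact_mod_cast h6
  have hzK : z ≤ K := (Nat.le_mul_self z).trans hzz
  obtain ⟨c, y, hy, hcsup, hcabs, hclow, hdet⟩ := hS K z hKs hzs (hzB.trans hgd)
  have hKr : (K : ℝ) ^ (49 / 100 : ℝ) ≤ K := by
    calc (K : ℝ) ^ (49 / 100 : ℝ) ≤ (K : ℝ) ^ (1 : ℝ) :=
          Real.rpow_le_rpow_of_exponent_le hK1 (by norm_num)
      _ = K := Real.rpow_one _
  have hcK : ∀ d, c d ≠ 0 → Adm8 z d ∧ d ≤ K := fun d hd => by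
    refine ⟨(hcsup d hd).1, ?_⟩
    have := (hcsup d hd).2.trans hKr
    exact_mod_cast this
  have hmom := hM K (by omega) c (fun d hd => ⟨(hcsup d hd).1.1, (hcsup d hd).2⟩) hcabs
  refine ⟨c, y, hy, ?_, ?_, ?_⟩
  · refine (low_second hη hmom).trans ?_
    have h7 : (Cm : ℝ) * K * Real.log K ^ Cm ≤ K * Real.log K ^ (Cm + 1) := by
      rw [pow_succ]
      have : 0 ≤ Real.log K ^ Cm := by positivity
      calc (Cm : ℝ) * K * Real.log K ^ Cm = K * (Real.log K ^ Cm * Cm) := by ring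
        _ ≤ K * (Real.log K ^ Cm * Real.log K) :=
          mul_le_mul_of_nonneg_left (mul_le_mul_of_nonneg_left hLCm this) hK0.le
    calc Real.log K ^ 2 * ((Cm : ℝ) * K * Real.log K ^ Cm) ≤
          Real.log K ^ 2 * (K * Real.log K ^ (Cm + 1)) :=
          mul_le_mul_of_nonneg_left h7 (by positivity)
      _ = K * Real.log K ^ (Cm + 3) := by ring
      _ ≤ K * Real.log K ^ (max Cs (Cm + 3)) :=
          mul_le_mul_of_nonneg_left (pow_le_pow_right₀ hL1 (le_max_right _ _)) hK0.le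
  · intro k hk2 hkK hrough hsq
    have hk4 : 4 ≤ k ^ 2 := by nlinarith
    have h8 := hdet (k ^ 2 - 2) (by omega) ((Nat.sub_le _ _).trans (Nat.pow_le_pow_left hkK 2))
      (low_primes hz2 hk2 hrough) hsq
    refine ⟨h8.1.trans ?_, h8.2⟩
    exact_mod_cast le_max_left Cs (Cm + 3)
  · intro m n hmn hcop hpar
    have hOm := lowOm_main (z := z) (m := m) (n := n) hcop
    have h9 := hmain z hzB (lowOm z m n) c hOm
      (fun d hd => ⟨(hcsup d hd).1.1, (hcsup d hd).2, fun p hp => ((hcsup d hd).1.2 p hp).1⟩) hcabs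
    rw [low_sum_gd hcK] at h9
    have h10 := hL z K (fun p => rr z m n p) hz2 hzK (rr_two hpar)
      (by
        by_cases h3z : 3 ≤ z
        · exact rr_le_one Nat.prime_three
            (fun h => hcop 3 (mem_pr.2 ⟨h, Nat.prime_three⟩)) (by norm_num)
        · exact rr_le_one Nat.prime_three (fun h => absurd h h3z) (by norm_num))
      (rr_le_one Nat.prime_five
        (fun h => hcop 5 (mem_pr.2 ⟨h, Nat.prime_five⟩)) (by norm_num))
      (fun p hp => rr_le_three (mem_pr.1 hp).2 (fun _ => hcop p hp))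
      (fun p hp h8 => rr_le_one (mem_pr.1 hp).2 (fun _ => hcop p hp) h8)
    have hA0 := AA_pos z m
    have hA1 := AA_le_one z m
    have hrI0 : 0 ≤ (rho z)⁻¹ := (inv_pos.2 (rho_pos z)).le
    have h10' : (cl / AA z m) / Real.log K ≤ (rho z)⁻¹ *
        (∏ p ∈ pr z, (1 - ((lowOm z m n p).card : ℝ) / ((p : ℝ) - 1))) *
        ∏ p ∈ W8 z K, (1 - g8 p) := by
      rw [div_div, mul_comm (AA z m), ← div_div, div_le_iff₀ hA0]
      refine h10.trans ?_
      calc (rho z)⁻¹ * (∏ p ∈ pr z, (1 - (rr z m n p : ℝ) / ((p : ℝ) - 1))) *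
            ∏ p ∈ W8 z K, (1 - g8 p) ≤
            (rho z)⁻¹ * ((∏ p ∈ pr z, (1 - ((lowOm z m n p).card : ℝ) / ((p : ℝ) - 1))) *
              AA z m) * ∏ p ∈ W8 z K, (1 - g8 p) :=
            mul_le_mul_of_nonneg_right (mul_le_mul_of_nonneg_left (rr_prod hcop) hrI0)
              (W8_prod_nonneg z K)
        _ = _ := by ring
    have hcomp := low_compare hη (n := n) (m := m) hz2 hcK hmn
    have hrz : (rho z)⁻¹ ≤ 2 * Real.log K ^ B := by
      have h11 := rho_inv_le z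
      have h12 : (1 : ℝ) ≤ Real.log K ^ B := one_le_pow₀ hL1
      linarith
    have hbs := low_badsum (K := K) (z := z) c
    have hbc := hB K z (by omega) hzz
    have hE : (∑ k ∈ lowBad K z, lowD c k) ^ 2 ≤
        Cb * (Real.sqrt K * (1 + Real.log K)) * (Cm * K * Real.log K ^ Cm) := by
      refine hbs.trans ?_
      apply mul_le_mul hbc hmom
      · exact sum_nonneg fun k _ => by positivity
      · have : 0 ≤ Real.sqrt K := Real.sqrt_nonneg _
        positivity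
    have h13 := low_arith2 (rI := (rho z)⁻¹) (B := B) (c := Cm) hK1 hL1
      (inv_pos.2 (rho_pos z)).le hrz
      (sum_nonneg fun k _ => lowD_nonneg c k) hE (Nat.cast_nonneg Cb) (Nat.cast_nonneg Cm) hg2
    have hL40' : 40 / (c₀ * (cl / AA z m)) ≤ Real.log K := by
      refine le_trans ?_ hL40
      apply div_le_div_of_nonneg_left (by norm_num) (by positivity)
      apply mul_le_mul_of_nonneg_left _ hc₀.le
      rw [le_div_iff₀ hA0]
      exact mul_le_of_le_one_right hcl.le hA1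
    have h14 := low_arith (rI := (rho z)⁻¹) (cl := cl / AA z m) hK0 hL1 (inv_pos.2 (rho_pos z)).le
      hc₀ (div_pos hcl hA0) hpsi
      (low_prod_nonneg z m n) hclow h10' h9 (hcomp.trans h13) (by
        have hLp : (0 : ℝ) < Real.log K := by linarith
        calc (rho z)⁻¹ * (K / Real.log K ^ (B + 2)) ≤ (2 * Real.log K ^ B) *
              (K / Real.log K ^ (B + 2)) := mul_le_mul_of_nonneg_right hrz (by positivity)
          _ = 2 * K / Real.log K ^ 2 := by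
              rw [pow_add]
              field_simp) hL40'
    calc c₀ * cl / 40 * K / Real.log K = AA z m * (c₀ * (cl / AA z m) / 40 * K / Real.log K) := by
          field_simp
      _ ≤ _ := mul_le_mul_of_nonneg_left h14 hA0.le

/-- `St_Low` without loss -/
def St_LowR : Prop := ∀ η : ℝ → ℝ, IsWt η → ∃ (c₁ : ℝ) (C B₀ : ℕ), 0 < c₁ ∧
  ∀ B : ℕ, B₀ ≤ B → ∀ᶠ X : ℕ in atTop, ∀ m : ℕ, 1 ≤ m → (m : ℝ) ≤ (X : ℝ) ^ (1 / 2 : ℝ) →
  ∃ (c : ℕ → ℝ) (y : ℕ), (y : ℝ) ≤ ((X / (8 * m) : ℕ) : ℝ) ^ (1 / 2 : ℝ) ∧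
    ∑ k ∈ range (X / (8 * m) + 1), Tw η (X / (8 * m)) (zz B X) c k ^ 2 ≤
      ((X / (8 * m) : ℕ) : ℝ) * Real.log X ^ C ∧
    (∀ k : ℕ, 2 ≤ k → k ≤ X / (8 * m) → Rough (zz B X) (k ^ 2 - 2) →
      (∀ p : ℕ, p.Prime → zz B X < p → p ≤ y → ¬ p ^ 2 ∣ k ^ 2 - 2) →
      ∑ d ∈ (k ^ 2 - 2).divisors, c d ≤ C ∧
      (0 < ∑ d ∈ (k ^ 2 - 2).divisors, c d → Nat.IsAtMostAlmostPrime 5 (k ^ 2 - 2))) ∧
    ∀ n : ℕ, X ≤ 2 * (n + m) → 4 * n ≤ 3 * X → (∀ p ∈ pr (zz B X), ¬ (p ∣ n ∧ p ∣ m)) →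
      (n + m) % 2 = 1 → c₁ * ((X / (8 * m) : ℕ) : ℝ) / Real.log X ≤ AA (zz B X) m *
        ∑ k ∈ range (X / (8 * m) + 1), Tw η (X / (8 * m)) (zz B X) c k *
          LamS (zz B X) (n - m * k)

theorem thm_LowR (h1 : St_Sieve) (h2 : St_Main) (h3 : St_Local) (h4 : St_Mom) (h5 : St_Bad) :
    St_LowR := by
  intro η hη
  obtain ⟨c₁, C, z₀, hc₁, hz₀, hK⟩ := low_K h1 h2 h3 h4 h5 η hη
  refine ⟨c₁, C, 1, hc₁, fun B hB => ?_⟩
  obtain ⟨K₀, hK₀⟩ := eventually_atTop.1 (hK (B + 1))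
  obtain ⟨K₂, hK₂⟩ := eventually_atTop.1 (low_log_ge (max 1 (3 ^ B)))
  filter_upwards [low_Kbig (max K₀ K₂), low_log_ge (max 1 (z₀ + 1)), eventually_ge_atTop 16]
    with X hXK hXlog hX16 m hm hmX
  obtain ⟨hK1, hKl, _⟩ := hXK m hm hmX
  have hX0 : (0 : ℝ) < X := by exact_mod_cast (by omega : 0 < X)
  have hX1 : (1 : ℝ) ≤ X := by exact_mod_cast (by omega : 1 ≤ X)
  set K : ℕ := X / (8 * m) with hKdef
  have hlX1 : 1 ≤ Real.log X := (le_max_left _ _).trans hXlog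
  have hlXz : (z₀ : ℝ) + 1 ≤ Real.log X := (le_max_right _ _).trans hXlog
  have hlK := hK₂ K ((le_max_right _ _).trans hK1)
  have hlK1 : 1 ≤ Real.log K := (le_max_left _ _).trans hlK
  have hlK3 : (3 : ℝ) ^ B ≤ Real.log K := (le_max_right _ _).trans hlK
  have hKX : K ≤ X := Nat.div_le_self _ _
  have hKpos : 0 < K := by
    rcases Nat.eq_zero_or_pos K with h0 | h0
    · rw [h0] at hlK1
      norm_num at hlK1
    · exact h0
  have hKpos' : (0 : ℝ) < K := by exact_mod_cast hKpos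
  have hlKX : Real.log K ≤ Real.log X :=
    Real.log_le_log hKpos' (by exact_mod_cast hKX)
  have hzz : (zz B X : ℝ) ≤ Real.log K ^ (B + 1) := by
    calc (zz B X : ℝ) ≤ Real.log X ^ B := Nat.floor_le (by positivity)
      _ ≤ (3 * Real.log K) ^ B := pow_le_pow_left₀ (by linarith) hKl B
      _ = 3 ^ B * Real.log K ^ B := mul_pow _ _ _
      _ ≤ Real.log K * Real.log K ^ B := mul_le_mul_of_nonneg_right hlK3 (by positivity)
      _ = Real.log K ^ (B + 1) := by rw [pow_succ]; ring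
  have hz0 : z₀ ≤ zz B X := by
    unfold zz
    apply Nat.le_floor
    calc (z₀ : ℝ) ≤ Real.log X := by linarith
      _ = Real.log X ^ 1 := (pow_one _).symm
      _ ≤ Real.log X ^ B := pow_le_pow_right₀ hlX1 hB
  obtain ⟨c, y, hy, hsec, hdet, hmain⟩ := hK₀ K ((le_max_left _ _).trans hK1) (zz B X) hz0 hzz
  refine ⟨c, y, hy, ?_, hdet, ?_⟩
  · refine hsec.trans ?_
    apply mul_le_mul_of_nonneg_left _ hKpos'.le
    exact pow_le_pow_left₀ (by linarith) hlKX C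
  · intro n hn1 hn2 hcop hpar
    have hmk : ∀ k ≤ K, m * k ≤ n := by
      intro k hk
      have h6 : m * K * 8 ≤ X := by
        have := Nat.div_mul_le_self X (8 * m)
        rw [← hKdef] at this
        calc m * K * 8 = K * (8 * m) := by ring
          _ ≤ X := this
      have h7 : m * k ≤ m * K := Nat.mul_le_mul_left m hk
      have h8 : 4 * m ≤ X := by
        have e1 : (X : ℝ) ^ (1 / 2 : ℝ) * (X : ℝ) ^ (1 / 2 : ℝ) = X := by
          rw [← Real.rpow_add hX0]; norm_num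
        have h9 : (4 : ℝ) ≤ (X : ℝ) ^ (1 / 2 : ℝ) := by
          rw [← Real.sqrt_eq_rpow]
          apply Real.le_sqrt_of_sq_le
          have : (16 : ℝ) ≤ X := by exact_mod_cast hX16
          linarith
        have hm0 : (0 : ℝ) < m := by exact_mod_cast hm
        have h10 : (4 : ℝ) * m ≤ X := by nlinarith
        exact_mod_cast h10
      omega
    refine le_trans ?_ (hmain m n hmk hcop hpar)
    apply div_le_div_of_nonneg_left _ (by linarith) hlKX
    exact mul_nonneg hc₁.le hKpos'.le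

end Pool.Agent.GBR
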