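import Mathlib
import Pool.Agent.GBQ.CoreU
import Pool.Agent.GBR.Good
import Pool.Agent.AAN.Stmts

set_option autoImplicit false

/-!
# GBR / Core

`1 ≤ m ≤ X^{1/2}`: for almost all `n` in the block at least `c X/(log X)^3` primes `p < n` such that
`q = (n - p)/m` is prime, `q^2 - 2` has at most five prime factors and `p_q - q + 1` has few prime
factors (right order of magnitude).
-/

namespace Pool.Agent.GBR

open Finset Filter
open Pool.Agent.MT
open Pool.Agent.GBQ
open Pool.Agent.EVN (Phi SolP)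

/-- the `q ≤ K` for which `p_q - q + 1` has too many prime factors -/
noncomputable def BO (n K : ℕ) : Finset ℕ :=
  (Icc 2 K).filter (fun q => 8 * Real.log (Real.log n) <
    (ArithmeticFunction.cardFactors (Nat.nth Nat.Prime (q - 1) - q + 1) : ℝ))

/-- the `j` that are counted -/
noncomputable def GJ (K m n : ℕ) : Finset ℕ := by
  classical
  exact (range (m * (K + 1))).filter
    (fun j => (n - j).Prime ∧ (j / m).Prime ∧ Nat.IsAtMostAlmostPrime 5 ((j / m) ^ 2 - 2))

theorem mem_GJ {K m n j : ℕ} : j ∈ GJ K m n ↔ j < m * (K + 1) ∧ (n - j).Prime ∧ (j / m).Prime ∧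
    Nat.IsAtMostAlmostPrime 5 ((j / m) ^ 2 - 2) := by
  classical
  simp only [GJ, mem_filter, mem_range]

/-- one term -/
theorem core_point {η : ℝ → ℝ} (hη : IsWt η) {K y z m n X j : ℕ} {c : ℕ → ℝ} {C : ℝ} (hC : 0 ≤ C)
    (hX : n ≤ X) (hKX : K ≤ X) (hj : j < m * (K + 1)) (hjn : j < n)
    (hdet : ∀ k : ℕ, 2 ≤ k → k ≤ K → Rough z (k ^ 2 - 2) →
      (∀ p : ℕ, p.Prime → z < p → p ≤ y → ¬ p ^ 2 ∣ k ^ 2 - 2) →
      ∑ d ∈ (k ^ 2 - 2).divisors, c d ≤ C ∧
      (0 < ∑ d ∈ (k ^ 2 - 2).divisors, c d → Nat.IsAtMostAlmostPrime 5 (k ^ 2 - 2))) :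
    Tw η K z c (j / m) * lam (n - j) ≤
      (if j ∈ coreBad K m n (coreBK K y z) then |Tw η K z c (j / m)| * Real.log X else 0) +
        (if j ∈ GJ K m n then C * Real.log X * Real.log X else 0) := by
  have hl0 := lam_nonneg (n - j)
  have hl1 : lam (n - j) ≤ Real.log X := by
    refine (lam_le_log _).trans (Real.log_le_log ?_ ?_)
    · exact_mod_cast (by omega : 0 < n - j)
    · exact_mod_cast (by omega : n - j ≤ X)
  have hLX : 0 ≤ Real.log X := hl0.trans hl1
  have h2nd : (0 : ℝ) ≤ if j ∈ GJ K m n then C * Real.log X * Real.log X else 0 := by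
    split_ifs
    · positivity
    · exact le_refl _
  have h1st : (0 : ℝ) ≤ if j ∈ coreBad K m n (coreBK K y z) then
      |Tw η K z c (j / m)| * Real.log X else 0 := by
    split_ifs
    · positivity
    · exact le_refl _
  by_cases hb : j ∈ coreBad K m n (coreBK K y z)
  · rw [if_pos hb]
    have : Tw η K z c (j / m) * lam (n - j) ≤ |Tw η K z c (j / m)| * Real.log X := by
      calc Tw η K z c (j / m) * lam (n - j) ≤ |Tw η K z c (j / m)| * lam (n - j) :=
            mul_le_mul_of_nonneg_right (le_abs_self _) hl0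
        _ ≤ _ := mul_le_mul_of_nonneg_left hl1 (abs_nonneg _)
    linarith
  · by_cases hpos : 0 < Tw η K z c (j / m) * lam (n - j)
    swap
    · push Not at hpos
      linarith
    have hlpos : 0 < lam (n - j) := by
      rcases hl0.lt_or_eq with h | h
      · exact h
      · rw [← h, mul_zero] at hpos
        exact absurd hpos (lt_irrefl 0)
    have hT : 0 < Tw η K z c (j / m) := by
      by_contra h
      push Not at h
      exact absurd hpos (not_lt.2 (mul_nonpos_of_nonpos_of_nonneg h hl0))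
    have hkK : j / m ≤ K := by
      have := Nat.div_lt_of_lt_mul hj
      omega
    rw [if_neg hb, zero_add]
    set k := j / m with hk
    have hTT := hT
    unfold Tw at hTT
    split_ifs at hTT with h2
    · obtain ⟨hk2, hr⟩ := h2
      have hlk0 := lam_nonneg k
      have hη0 := hη.nonneg ((k : ℝ) / K)
      have hη1 := hη.le_one ((k : ℝ) / K)
      have hlk : lam k ≠ 0 := by
        intro h
        rw [h] at hTT
        simp at hTT
      have hD : 0 < ∑ d ∈ (k ^ 2 - 2).divisors, c d := by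
        by_contra h
        push Not at h
        exact absurd hTT (not_lt.2 (mul_nonpos_of_nonneg_of_nonpos (mul_nonneg hlk0 hη0) h))
      have hnb : k ∉ coreBK K y z ∧ ¬ (¬ (n - j).Prime ∧ lam (n - j) ≠ 0) := by
        constructor
        · intro h
          apply hb
          unfold coreBad
          rw [mem_filter, mem_range]
          exact ⟨hj, Or.inl h⟩
        · intro h
          apply hb
          unfold coreBad
          rw [mem_filter, mem_range]
          exact ⟨hj, Or.inr h⟩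
      have hxp : (n - j).Prime := by
        by_contra h
        exact hnb.2 ⟨h, hlpos.ne'⟩
      have hkp : k.Prime := by
        by_contra h
        apply hnb.1
        unfold coreBK
        rw [mem_filter, mem_Icc]
        exact ⟨⟨hk2, hkK⟩, Or.inr (Or.inl ⟨h, hlk⟩)⟩
      have hsq : ∀ p : ℕ, p.Prime → z < p → p ≤ y → ¬ p ^ 2 ∣ k ^ 2 - 2 := by
        intro p hp hzp hpy hd
        apply hnb.1
        unfold coreBK
        rw [mem_filter, mem_Icc]
        exact ⟨⟨hk2, hkK⟩, Or.inr (Or.inr ⟨p, mem_range.2 (by omega), hp, hzp, hd⟩)⟩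
      obtain ⟨h7, h8⟩ := hdet k hk2 hkK hr hsq
      have hmem : j ∈ GJ K m n := by
        rw [mem_GJ, ← hk]
        exact ⟨hj, hxp, hkp, h8 hD⟩
      rw [if_pos hmem]
      have hTle : Tw η K z c k ≤ C * Real.log X := by
        unfold Tw
        rw [if_pos ⟨hk2, hr⟩]
        have h9 : lam k * η ((k : ℝ) / K) ≤ Real.log X := by
          calc lam k * η ((k : ℝ) / K) ≤ lam k * 1 := mul_le_mul_of_nonneg_left hη1 hlk0
            _ = lam k := mul_one _
            _ ≤ Real.log k := lam_le_log k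
            _ ≤ Real.log X := Real.log_le_log (by exact_mod_cast (by omega : 0 < k))
              (by exact_mod_cast hkK.trans hKX)
        calc lam k * η ((k : ℝ) / K) * ∑ d ∈ (k ^ 2 - 2).divisors, c d ≤
              Real.log X * C := mul_le_mul h9 h7 hD.le hLX
          _ = C * Real.log X := mul_comm _ _
      exact mul_le_mul hTle hl1 hl0 (by positivity)
    · exact absurd hTT (lt_irrefl 0)

/-- the contribution of the discarded `j` -/
theorem core_badsum {η : ℝ → ℝ} {K y z m n X : ℕ} {c : ℕ → ℝ} {W Nb : ℝ}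
    (hW : ∑ j ∈ range (m * (K + 1)), Tw η K z c (j / m) ^ 2 ≤ W)
    (hN : ((coreBad K m n (coreBK K y z)).card : ℝ) ≤ Nb) :
    (∑ j ∈ coreBad K m n (coreBK K y z), |Tw η K z c (j / m)| * Real.log X) ^ 2 ≤
      Real.log X ^ 2 * Nb * W := by
  rw [← sum_mul, mul_pow, mul_comm, mul_assoc]
  apply mul_le_mul_of_nonneg_left _ (by positivity)
  have h2 := sq_sum_le_card_mul_sum_sq (s := coreBad K m n (coreBK K y z))
    (f := fun j => |Tw η K z c (j / m)|)
  refine h2.trans ?_
  have h3 : ∑ j ∈ coreBad K m n (coreBK K y z), |Tw η K z c (j / m)| ^ 2 ≤ W := by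
    refine le_trans ?_ hW
    rw [sum_congr rfl (fun j _ => sq_abs (Tw η K z c (j / m)))]
    apply sum_le_sum_of_subset_of_nonneg
    · intro j hj
      unfold coreBad at hj
      exact (mem_filter.1 hj).1
    · intro j _ _
      positivity
  exact mul_le_mul hN h3 (sum_nonneg fun j _ => by positivity)
    ((Nat.cast_nonneg _).trans hN)

/-- the sum over all `j` -/
theorem core_sum {η : ℝ → ℝ} (hη : IsWt η) {K y z m n X : ℕ} {c : ℕ → ℝ} {C : ℝ} (hC : 0 ≤ C)
    (hX : n ≤ X) (hKX : K ≤ X) (hJ : m * (K + 1) ≤ n)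
    (hdet : ∀ k : ℕ, 2 ≤ k → k ≤ K → Rough z (k ^ 2 - 2) →
      (∀ p : ℕ, p.Prime → z < p → p ≤ y → ¬ p ^ 2 ∣ k ^ 2 - 2) →
      ∑ d ∈ (k ^ 2 - 2).divisors, c d ≤ C ∧
      (0 < ∑ d ∈ (k ^ 2 - 2).divisors, c d → Nat.IsAtMostAlmostPrime 5 (k ^ 2 - 2))) :
    ∑ j ∈ range (m * (K + 1)), Tw η K z c (j / m) * lam (n - j) ≤
      ∑ j ∈ coreBad K m n (coreBK K y z), |Tw η K z c (j / m)| * Real.log X +
        C * Real.log X * Real.log X * ((GJ K m n).card : ℝ) := by
  refine (sum_le_sum fun j hj => core_point hη (y := y) hC hX hKX (mem_range.1 hj)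
    (by have := mem_range.1 hj; omega) hdet).trans (le_of_eq ?_)
  rw [sum_add_distrib, ← sum_filter, ← sum_filter, sum_const, nsmul_eq_mul]
  have h1 : (range (m * (K + 1))).filter (fun j => j ∈ coreBad K m n (coreBK K y z)) =
      coreBad K m n (coreBK K y z) := by
    ext j
    rw [mem_filter, mem_range]
    constructor
    · exact fun h => h.2
    · intro h
      refine ⟨?_, h⟩
      unfold coreBad at h
      exact mem_range.1 (mem_filter.1 h).1
  have h2 : (range (m * (K + 1))).filter (fun j => j ∈ GJ K m n) = GJ K m n := by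
    ext j
    rw [mem_filter, mem_range]
    exact ⟨fun h => h.2, fun h => ⟨(mem_GJ.1 h).1, h⟩⟩
  rw [h1, h2, mul_comm (((GJ K m n).card : ℝ))]

/-- the number of the counted `j` -/
theorem GJ_card {K m n : ℕ} (hm : 1 ≤ m) (hJ : m * (K + 1) ≤ n) :
    ((GJ K m n).card : ℝ) ≤ ((SolP Phi m n).card : ℝ) + m * ((BO n K).card : ℝ) := by
  classical
  have h1 : GJ K m n ⊆ (SolP Phi m n).image (fun p => n - p) ∪
      (BO n K ×ˢ range m).image (fun x => m * x.1 + x.2) := by
    intro j hj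
    obtain ⟨h1, h2, h3, h4⟩ := mem_GJ.1 hj
    have hk0 : 0 < j / m := h3.pos
    have hj0 : 0 < j := by
      by_contra h
      have : j = 0 := by omega
      rw [this, Nat.zero_div] at hk0
      omega
    rw [mem_union]
    by_cases h5 : (ArithmeticFunction.cardFactors
        (Nat.nth Nat.Prime (j / m - 1) - j / m + 1) : ℝ) ≤ 8 * Real.log (Real.log n)
    · left
      rw [mem_image]
      refine ⟨n - j, ?_, by omega⟩
      unfold SolP
      rw [mem_filter, mem_range]
      have e : n - (n - j) = j := by omega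
      rw [e]
      exact ⟨by omega, h2, h3, h4, h5⟩
    · right
      push Not at h5
      rw [mem_image]
      refine ⟨(j / m, j % m), ?_, Nat.div_add_mod j m⟩
      rw [mem_product]
      refine ⟨?_, mem_range.2 (Nat.mod_lt _ (by omega))⟩
      unfold BO
      rw [mem_filter, mem_Icc]
      have hkK : j / m ≤ K := by
        have := Nat.div_lt_of_lt_mul h1
        omega
      exact ⟨⟨h3.two_le, hkK⟩, h5⟩
  have h2 := card_le_card h1
  have h3 := card_union_le ((SolP Phi m n).image (fun p => n - p))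
    ((BO n K ×ˢ range m).image (fun x => m * x.1 + x.2))
  have h4 := card_image_le (s := SolP Phi m n) (f := fun p : ℕ => n - p)
  have h5 := card_image_le (s := BO n K ×ˢ range m) (f := fun x : ℕ × ℕ => m * x.1 + x.2)
  rw [card_product, card_range] at h5
  have h6 : (GJ K m n).card ≤ (SolP Phi m n).card + (BO n K).card * m := by omega
  calc ((GJ K m n).card : ℝ) ≤ (((SolP Phi m n).card + (BO n K).card * m : ℕ) : ℝ) := by
        exact_mod_cast h6
    _ = ((SolP Phi m n).card : ℝ) + m * ((BO n K).card : ℝ) := by push_cast; ring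


/-- the block theorem, `1 ≤ m ≤ X^{1/2}` -/
theorem coreR (h1 : St_LowR) (h2 : St_Sup) (h3 : St_L2) (h4 : St_Bad)
    (h5 : Pool.Agent.AAN.St_OmB) : ∃ c : ℝ, 0 < c ∧ ∀ A : ℕ, ∀ᶠ X : ℕ in atTop, ∀ m : ℕ, 1 ≤ m →
    (m : ℝ) ≤ (X : ℝ) ^ (1 / 2 : ℝ) → ∀ F : Finset ℕ,
    (∀ n ∈ F, X ≤ 2 * n ∧ 4 * n ≤ 3 * X ∧ Admissible m n ∧
      ((SolP Phi m n).card : ℝ) < c * X / Real.log X ^ 3) → (F.card : ℝ) ≤ X / Real.log X ^ A := by
  obtain ⟨η, hη⟩ := exists_wt
  obtain ⟨c₁, C, B₀, hc₁, hLow⟩ := h1 η hη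
  obtain ⟨cg, hcg, hGood⟩ := goodR
  obtain ⟨Cb, hBK⟩ := coreu_BK h4
  obtain ⟨Cp, hPP⟩ := coreu_PP h4
  obtain ⟨CO, nO, hCO, hOm⟩ := h5
  obtain ⟨c₂, hc₂def⟩ : ∃ c₂ : ℝ, c₂ = cg * c₁ := ⟨_, rfl⟩
  have hc₂ : 0 < c₂ := by rw [hc₂def]; positivity
  have hC0 : (0 : ℝ) ≤ C := Nat.cast_nonneg C
  refine ⟨c₂ / (128 * (C + 1)), by positivity, fun A => ?_⟩
  obtain ⟨B₁, hSup⟩ := h2 η hη (A + C + 8)
  obtain ⟨B, hBdef⟩ : ∃ B : ℕ, B = max (max B₀ B₁) (C + 12) := ⟨_, rfl⟩
  have hB0 : B₀ ≤ B := by rw [hBdef]; exact (le_max_left _ _).trans (le_max_left _ _)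
  have hB1 : B₁ ≤ B := by rw [hBdef]; exact (le_max_right _ _).trans (le_max_left _ _)
  have hBC : C + 12 ≤ B := by rw [hBdef]; exact le_max_right _ _
  obtain ⟨K₁, hK₁⟩ := eventually_atTop.1 (low_growth (2 * B + 1) (2 * 3 ^ (2 * B + 1)))
  have hg1 : ∀ᶠ X : ℕ in atTop, Cp * 64 * Real.log X ^ (B + 1) ≤ Real.sqrt X :=
    low_growth (B + 1) (Cp * 64)
  obtain ⟨Q, hQdef⟩ : ∃ Q : ℝ, Q = 5 * Cb + 1 := ⟨_, rfl⟩
  have hg2 : ∀ᶠ X : ℕ in atTop, 128 * C * CO / c₂ ≤ Real.log X ^ (1 / 10 : ℝ) :=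
    ((tendsto_rpow_atTop (by norm_num : (0 : ℝ) < 1 / 10)).comp
      (Real.tendsto_log_atTop.comp (tendsto_natCast_atTop_atTop (R := ℝ)))).eventually_ge_atTop _
  filter_upwards [hLow B hB0, hSup B hB1, low_Kbig (max K₁ 16), hg1,
    eventually_ge_atTop (max 4096 (2 * nO)),
    low_log_ge (max 8 (max (Q * (16 * 1 ^ 2) / c₂ ^ 2) (256 * 1 ^ 2 / c₂ ^ 2))), hg2]
    with X hX1 hX2 hX3 hX4 hX5 hX6 hX7
  intro m hm1 hmX F hF
  have hL8 : (8 : ℝ) ≤ Real.log X := (le_max_left _ _).trans hX6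
  have hLQ : Q * (16 * 1 ^ 2) / c₂ ^ 2 ≤ Real.log X :=
    (le_max_left _ _).trans ((le_max_right _ _).trans hX6)
  have hLC : 256 * 1 ^ 2 / c₂ ^ 2 ≤ Real.log X :=
    (le_max_right _ _).trans ((le_max_right _ _).trans hX6)
  have hmr1 : (1 : ℝ) ≤ m := by exact_mod_cast hm1
  obtain ⟨c, y, hy, hsec, hdet, hmain⟩ := hX1 m hm1 hmX
  obtain ⟨hKb, hlK, hXK⟩ := hX3 m hm1 hmX
  obtain ⟨K, hKdef⟩ : ∃ K : ℕ, K = X / (8 * m) := ⟨_, rfl⟩
  obtain ⟨z, hzdef⟩ : ∃ z : ℕ, z = zz B X := ⟨_, rfl⟩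
  obtain ⟨L, hLdef⟩ : ∃ L : ℝ, L = Real.log X := ⟨_, rfl⟩
  rw [← hKdef] at hy hsec hdet hmain hKb hlK hXK
  rw [← hzdef] at hsec hdet hmain hX2
  rw [← hLdef] at hsec hmain hX2 hX4 hL8 hLQ hLC hlK hX7
  have hL1 : 1 ≤ L := by linarith
  have hLp : 0 < L := by linarith
  have hX4096 : 4096 ≤ X := (le_max_left _ _).trans hX5
  have hXnO : 2 * nO ≤ X := (le_max_right _ _).trans hX5
  have hXr : (4096 : ℝ) ≤ X := by exact_mod_cast hX4096
  have hX0 : (0 : ℝ) < X := by linarith
  have hXn0 : 0 < X := by omega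
  have hK16 : 16 ≤ K := (le_max_right _ _).trans hKb
  have hK0 : (0 : ℝ) < K := by exact_mod_cast (by omega : 0 < K)
  -- sizes of `m K`
  have hs1 : (m : ℝ) ≤ Real.sqrt X := coreu_sqrt_le hmX
  have hss : Real.sqrt X * Real.sqrt X = X := Real.mul_self_sqrt hX0.le
  have hs64 : 64 ≤ Real.sqrt X := by
    apply Real.le_sqrt_of_sq_le
    linarith
  have hm16 : 16 * m ≤ X := by
    have : (16 : ℝ) * m ≤ X := by
      rw [← hss]
      exact mul_le_mul (by linarith) hs1 (by linarith) (by linarith)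
    exact_mod_cast this
  have hKm : K * (8 * m) ≤ X := by
    rw [hKdef]; exact Nat.div_mul_le_self X (8 * m)
  have hK8 : 8 * K ≤ X := by
    refine le_trans ?_ hKm
    rw [mul_comm 8 K]
    exact Nat.mul_le_mul_left K (by omega)
  have hV16 : X ≤ 16 * (K * m) := by
    have e : 8 * K * m = 8 * (K * m) := by ring
    omega
  have hJ4 : 4 * (m * (K + 1)) ≤ X := by
    have e : m * (K + 1) = K * m + m := by ring
    have e2 : K * (8 * m) = 8 * (K * m) := by ring
    omega
  obtain ⟨V, hVdef⟩ : ∃ V : ℝ, V = K * m := ⟨_, rfl⟩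
  have hV0 : 0 < V := by rw [hVdef]; positivity
  have hXV : (X : ℝ) ≤ 16 * V := by rw [hVdef]; exact_mod_cast hV16
  have hKX : K ≤ X := by rw [hKdef]; exact Nat.div_le_self _ _
  have hlKX : Real.log K ≤ L := by
    rw [hLdef]
    exact Real.log_le_log hK0 (by exact_mod_cast hKX)
  have hlm : Real.log m ≤ L := by
    rw [hLdef]
    exact Real.log_le_log (by linarith) (by exact_mod_cast (by omega : m ≤ X))
  -- `z`
  have hLB8 : 8 * L ≤ L ^ B := by
    calc 8 * L ≤ L * L := mul_le_mul_of_nonneg_right hL8 hLp.le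
      _ = L ^ 2 := by ring
      _ ≤ L ^ B := pow_le_pow_right₀ hL1 (by omega)
  have hz1 : (z : ℝ) ≤ L ^ B := by
    rw [hzdef, hLdef]
    exact Nat.floor_le (by rw [← hLdef]; positivity)
  have hz3 : L ^ B < z + 1 := by
    rw [hzdef, hLdef]
    exact Nat.lt_floor_add_one _
  have hz2 : L ^ B ≤ 2 * z := by linarith
  have hz2' : 2 ≤ z := by
    have : (2 : ℝ) ≤ z := by linarith
    exact_mod_cast this
  have hzlog : 3 * Real.log m ≤ z := by linarith
  -- the bad `k`
  have hKgrow : 2 * L ^ (2 * B + 1) ≤ Real.sqrt K := by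
    have h6 := hK₁ K ((le_max_left _ _).trans hKb)
    have h7 : L ^ (2 * B + 1) ≤ (3 * Real.log K) ^ (2 * B + 1) :=
      pow_le_pow_left₀ hLp.le hlK _
    rw [mul_pow] at h7
    have h8 : 2 * (3 ^ (2 * B + 1) * Real.log K ^ (2 * B + 1)) =
        2 * 3 ^ (2 * B + 1) * Real.log K ^ (2 * B + 1) := by ring
    linarith
  have hbk := coreu_BK2 (B := B) (L := L) (Nat.cast_nonneg Cb)
    (hBK K y z (by omega) hz2') hL1 hlKX hz1 hz2 (coreu_sqrt_le hy) hKgrow
  -- the second moment
  have hw2 : ∑ j ∈ range (m * (K + 1)), Tw η K z c (j / m) ^ 2 ≤ V * L ^ C := by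
    rw [coreu_w2]
    calc (m : ℝ) * ∑ k ∈ range (K + 1), Tw η K z c k ^ 2 ≤ m * (K * L ^ C) :=
          mul_le_mul_of_nonneg_left hsec (by linarith)
      _ = V * L ^ C := by rw [hVdef]; ring
  have hJ1 : m * (K + 1) - 1 + 1 = m * (K + 1) := by
    have : 0 < m * (K + 1) := by positivity
    omega
  -- Parseval
  have hpar := h3 (fun j => Tw η K z c (j / m))
    (fun x => (lam x - LamS z x) * η ((x : ℝ) / X)) (m * (K + 1) - 1) X 1
    (X / L ^ (A + C + 8)) (le_refl _) hX2
  rw [hJ1] at hpar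
  have hpar2 := hpar.trans (mul_le_mul_of_nonneg_left hw2 (sq_nonneg _))
  -- every `n ∈ F`
  have hn : ∀ n ∈ F, (c₂ * V / (4 * 1 * L ^ 2)) ^ 2 ≤
      (∑ j ∈ range (m * (K + 1)), if 1 * j ≤ n then Tw η K z c (j / m) *
        ((lam (n - 1 * j) - LamS z (n - 1 * j)) * η (((n - 1 * j : ℕ) : ℝ) / X)) else 0) ^ 2 := by
    intro n hnF
    obtain ⟨hn1, hn2, hadm, hcard⟩ := hF n hnF
    have hnX : n ≤ X := by omega
    have hn4 : 4 ≤ n := by omega
    obtain ⟨PP, hPP1, hPP2⟩ := hPP n hn4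
    have hA0 := AA_pos z m
    have hmain' := coreu_main (K := K) (c := c) hz2'
      (V := c₁ * K / L / AA z m) (by positivity) hn1 hn2 (fun n' g1 g2 g3 g4 => by
        rw [div_le_iff₀ hA0, mul_comm _ (AA z m)]
        exact hmain n' g1 g2 g3 g4)
    have hgood := hGood m n z hadm hz2' hzlog
    have hVm : c₂ * V / L ≤ (((range m).filter
        (fun r => (n - r).Coprime m ∧ (n - r + m) % 2 = 1)).card : ℝ) * (c₁ * K / L / AA z m) := by
      calc c₂ * V / L = cg * (m * AA z m) * (c₁ * K / L / AA z m) := by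
            rw [hc₂def, hVdef]
            field_simp
        _ ≤ _ := mul_le_mul_of_nonneg_right hgood (by positivity)
    -- the bad `j`
    have hcardB : ((coreBad K m n (coreBK K y z)).card : ℝ) ≤ Q * V / L ^ B := by
      refine (coreu_card (coreBK K y z) PP hm1 hPP1).trans ?_
      have h6 : (m : ℝ) * ((coreBK K y z).card : ℝ) ≤ 5 * Cb * V / L ^ B := by
        calc (m : ℝ) * ((coreBK K y z).card : ℝ) ≤ m * (5 * Cb * K / L ^ B) :=
              mul_le_mul_of_nonneg_left hbk (by linarith)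
          _ = 5 * Cb * V / L ^ B := by rw [hVdef]; ring
      have h7 : (PP.card : ℝ) ≤ V / L ^ B := by
        refine hPP2.trans ?_
        have h8 : Real.sqrt n ≤ Real.sqrt X := Real.sqrt_le_sqrt (by exact_mod_cast hnX)
        have h9 : Real.log n ≤ L := by
          rw [hLdef]
          exact Real.log_le_log (by exact_mod_cast (by omega : 0 < n)) (by exact_mod_cast hnX)
        have h10 : Real.sqrt n * (1 + Real.log n) ≤ Real.sqrt X * (2 * L) := by
          apply mul_le_mul h8 (by linarith) _ (Real.sqrt_nonneg _)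
          have := Real.log_natCast_nonneg n
          linarith
        rw [le_div_iff₀ (by positivity)]
        have hCp0 : (0 : ℝ) ≤ Cp := Nat.cast_nonneg _
        calc (Cp : ℝ) * (Real.sqrt n * (1 + Real.log n)) * L ^ B ≤
              Cp * (Real.sqrt X * (2 * L)) * L ^ B := by
              apply mul_le_mul_of_nonneg_right _ (by positivity)
              exact mul_le_mul_of_nonneg_left h10 hCp0
          _ = (Cp * 64 * L ^ (B + 1)) * Real.sqrt X / 32 := by rw [pow_succ]; ring
          _ ≤ Real.sqrt X * Real.sqrt X / 32 := by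
              have := mul_le_mul_of_nonneg_right hX4 (Real.sqrt_nonneg X)
              linarith
          _ ≤ V := by rw [hss]; linarith
      rw [hQdef]
      calc (m : ℝ) * ((coreBK K y z).card : ℝ) + PP.card ≤ 5 * Cb * V / L ^ B + V / L ^ B :=
            add_le_add h6 h7
        _ = (5 * Cb + 1) * V / L ^ B := by ring
    have hT2 := core_badsum (X := X) hw2 hcardB
    have hsum := core_sum (X := X) (m := m) (n := n) (K := K) hη (y := y) (z := z) (c := c) hC0 hnX hKX (by omega) hdet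
    obtain ⟨T, hTdef⟩ : ∃ T : ℝ, T = ∑ j ∈ coreBad K m n (coreBK K y z),
      |Tw η K z c (j / m)| * Real.log X := ⟨_, rfl⟩
    rw [← hTdef] at hT2 hsum
    rw [← hLdef] at hT2 hsum
    have hT3 : T ≤ c₂ * V / (4 * 1 * L ^ 2) := coreu_arith1 hL1 hV0 hc₂ one_pos hBC hT2 hLQ
    have hT4 : c₂ * V / (4 * 1 * L ^ 2) ≤ c₂ * V / (4 * L) := by
      apply div_le_div_of_nonneg_left (by positivity) (by positivity)
      have hLL : L ≤ L ^ 2 := le_self_pow₀ hL1 (by norm_num)
      linarith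
    -- the counted `j`
    have hBO : (m : ℝ) * ((BO n K).card : ℝ) ≤ 16 * CO * V / (L ^ 3 * L ^ (1 / 10 : ℝ)) := by
      have h6 := hOm n (by omega) K (by omega) (by omega)
      have hlogn : L / 2 ≤ Real.log n := by
        have h7 : Real.log X ≤ Real.log (2 * n) :=
          Real.log_le_log hX0 (by exact_mod_cast hn1)
        have hn0 : (n : ℝ) ≠ 0 := by
          have : n ≠ 0 := by omega
          exact_mod_cast this
        rw [Real.log_mul (by norm_num) hn0] at h7
        have h8 := Real.log_two_lt_d9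
        rw [← hLdef] at h7
        linarith
      have h7 : (L / 2) ^ (31 / 10 : ℝ) ≤ Real.log n ^ (31 / 10 : ℝ) :=
        Real.rpow_le_rpow (by linarith) hlogn (by norm_num)
      have h8 : (L / 2) ^ (31 / 10 : ℝ) = L ^ 3 * L ^ (1 / 10 : ℝ) / 2 ^ (31 / 10 : ℝ) := by
        rw [Real.div_rpow hLp.le (by norm_num)]
        congr 1
        rw [← Real.rpow_natCast L 3, ← Real.rpow_add hLp]
        norm_num
      have h9 : (2 : ℝ) ^ (31 / 10 : ℝ) ≤ 16 := by
        calc (2 : ℝ) ^ (31 / 10 : ℝ) ≤ 2 ^ (4 : ℝ) :=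
              Real.rpow_le_rpow_of_exponent_le (by norm_num) (by norm_num)
          _ = 16 := by
              have : (2 : ℝ) ^ (4 : ℝ) = 2 ^ (4 : ℕ) := by exact_mod_cast Real.rpow_natCast 2 4
              rw [this]; norm_num
      have h10 : L ^ 3 * L ^ (1 / 10 : ℝ) / 16 ≤ Real.log n ^ (31 / 10 : ℝ) := by
        refine le_trans ?_ h7
        rw [h8]
        exact div_le_div_of_nonneg_left (by positivity) (by positivity) h9
      have h11 : ((BO n K).card : ℝ) ≤ 16 * CO * K / (L ^ 3 * L ^ (1 / 10 : ℝ)) := by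
        refine h6.trans ?_
        rw [div_le_div_iff₀ (by
          have : 0 < L ^ 3 * L ^ (1 / 10 : ℝ) / 16 := by positivity
          linarith) (by positivity)]
        have h12 : L ^ 3 * L ^ (1 / 10 : ℝ) ≤ 16 * Real.log n ^ (31 / 10 : ℝ) := by linarith
        calc CO * K * (L ^ 3 * L ^ (1 / 10 : ℝ)) ≤ CO * K * (16 * Real.log n ^ (31 / 10 : ℝ)) :=
              mul_le_mul_of_nonneg_left h12 (by positivity)
          _ = 16 * CO * K * Real.log n ^ (31 / 10 : ℝ) := by ring
      calc (m : ℝ) * ((BO n K).card : ℝ) ≤ m * (16 * CO * K / (L ^ 3 * L ^ (1 / 10 : ℝ))) :=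
            mul_le_mul_of_nonneg_left h11 (by linarith)
        _ = 16 * CO * V / (L ^ 3 * L ^ (1 / 10 : ℝ)) := by rw [hVdef]; ring
    have hGJ := GJ_card (K := K) (m := m) (n := n) hm1 (by omega)
    have hcount : C * L * L * ((GJ K m n).card : ℝ) ≤ c₂ * V / (4 * L) := by
      have e1 : C * L * L * ((SolP Phi m n).card : ℝ) ≤ c₂ * V / (8 * L) := by
        have g1 : ((SolP Phi m n).card : ℝ) ≤ c₂ / (128 * (C + 1)) * (16 * V) / L ^ 3 := by
          rw [← hLdef] at hcard
          refine hcard.le.trans ?_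
          exact div_le_div_of_nonneg_right
            (mul_le_mul_of_nonneg_left hXV (by positivity)) (by positivity)
        calc C * L * L * ((SolP Phi m n).card : ℝ) ≤
              (C + 1) * L * L * (c₂ / (128 * (C + 1)) * (16 * V) / L ^ 3) := by
              apply mul_le_mul _ g1 (Nat.cast_nonneg _) (by positivity)
              apply mul_le_mul_of_nonneg_right _ hLp.le
              apply mul_le_mul_of_nonneg_right _ hLp.le
              linarith
          _ = c₂ * V / (8 * L) := by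
              field_simp
              ring
      have e2 : C * L * L * (m * ((BO n K).card : ℝ)) ≤ c₂ * V / (8 * L) := by
        have g1 : C * L * L * (m * ((BO n K).card : ℝ)) ≤
            C * L * L * (16 * CO * V / (L ^ 3 * L ^ (1 / 10 : ℝ))) :=
          mul_le_mul_of_nonneg_left hBO (by positivity)
        refine g1.trans ?_
        have hLt : 0 < L ^ (1 / 10 : ℝ) := by positivity
        rw [div_le_iff₀ hc₂] at hX7
        have e3 : C * L * L * (16 * CO * V / (L ^ 3 * L ^ (1 / 10 : ℝ))) =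
            (128 * C * CO) * (V / (8 * L)) / L ^ (1 / 10 : ℝ) := by
          field_simp
          ring
        rw [e3, div_le_iff₀ hLt]
        calc (128 * C * CO) * (V / (8 * L)) ≤ (L ^ (1 / 10 : ℝ) * c₂) * (V / (8 * L)) :=
              mul_le_mul_of_nonneg_right hX7 (by positivity)
          _ = c₂ * V / (8 * L) * L ^ (1 / 10 : ℝ) := by ring
      calc C * L * L * ((GJ K m n).card : ℝ) ≤
            C * L * L * (((SolP Phi m n).card : ℝ) + m * ((BO n K).card : ℝ)) :=
            mul_le_mul_of_nonneg_left hGJ (by positivity)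
        _ = C * L * L * ((SolP Phi m n).card : ℝ) + C * L * L * (m * ((BO n K).card : ℝ)) := by
            ring
        _ ≤ c₂ * V / (8 * L) + c₂ * V / (8 * L) := add_le_add e1 e2
        _ = c₂ * V / (4 * L) := by ring
    have hlarge := coreu_large hη hXn0 hn1 hn2 hJ4 hm1 hsum (hVm.trans hmain')
    rw [hJ1] at hlarge
    have e4 : c₂ * V / L = 4 * (c₂ * V / (4 * L)) := by
      field_simp
    have hpos : 0 ≤ c₂ * V / (4 * 1 * L ^ 2) := by positivity
    rw [← neg_sq (∑ j ∈ range (m * (K + 1)), _)]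
    apply pow_le_pow_left₀ hpos
    have hq : 0 ≤ c₂ * V / (4 * L) := by positivity
    linarith
  have hFsub : F ⊆ range (X + 1) := by
    intro n hnF
    obtain ⟨hn1, hn2, _⟩ := hF n hnF
    rw [mem_range]
    omega
  have hsumF : (F.card : ℝ) * (c₂ * V / (4 * 1 * L ^ 2)) ^ 2 ≤
      (X / L ^ (A + C + 8)) ^ 2 * (V * L ^ C) := by
    refine le_trans ?_ hpar2
    rw [← nsmul_eq_mul, ← sum_const]
    refine (sum_le_sum hn).trans ?_
    exact sum_le_sum_of_subset_of_nonneg hFsub fun n _ _ => sq_nonneg _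
  rw [← hLdef]
  exact coreu_arith2 hL1 hV0 hX0 hc₂ one_pos rfl hXV hsumF hLC

/-- the module SMR -/
theorem thm_SmR (h1 : St_LowR) (h2 : St_Sup) (h3 : St_L2) (h4 : St_Bad)
    (h5 : Pool.Agent.AAN.St_OmB) : Pool.Agent.AAN.St_SmR := by
  obtain ⟨c, hc, h⟩ := coreR h1 h2 h3 h4 h5
  refine ⟨c / 8, by positivity, fun A D => ?_⟩
  filter_upwards [h A, low_logpow_le D (1 / 2) (by norm_num), low_log_ge 2,
    eventually_ge_atTop 4] with X hX hXD hXL hX4
  intro m hm hmX F hF
  refine hX m hm (hmX.trans hXD) F fun n hn => ?_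
  obtain ⟨g1, g2, g3, g4⟩ := hF n hn
  refine ⟨g1, g2, g3, g4.trans_le ?_⟩
  have hn0 : 0 < n := by omega
  have hnr : (0 : ℝ) < n := by exact_mod_cast hn0
  have hX0 : (0 : ℝ) < X := by exact_mod_cast (by omega : 0 < X)
  have hnX : (n : ℝ) ≤ X := by exact_mod_cast (by omega : n ≤ X)
  have hL : 0 < Real.log X := by linarith
  have hlogn : Real.log X / 2 ≤ Real.log n := by
    have h7 : Real.log X ≤ Real.log (2 * n) := Real.log_le_log hX0 (by exact_mod_cast g1)
    rw [Real.log_mul (by norm_num) hnr.ne'] at h7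
    have h8 := Real.log_two_lt_d9
    linarith
  have h9 : (Real.log X / 2) ^ 3 ≤ Real.log n ^ 3 := pow_le_pow_left₀ (by linarith) hlogn 3
  calc c / 8 * n / Real.log n ^ 3 ≤ c / 8 * X / (Real.log X / 2) ^ 3 := by
        apply div_le_div₀ (by positivity) _ (by positivity) h9
        exact mul_le_mul_of_nonneg_left hnX (by positivity)
    _ = c * X / Real.log X ^ 3 := by
        field_simp
        ring

end Pool.Agent.GBR
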