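import Mathlib
import Pool.Agent.GBR.Core
import Pool.Agent.AAN.Asm

set_option autoImplicit false

/-! Assembly: the theorem with the right order of magnitude `c n/(log n)^3`. -/

namespace Pool.Agent.GBR

open Finset Filter
open Pool.Agent.EVN (Phi SolP)

theorem lowR : St_LowR :=
  thm_LowR GBQ.thm_Sieve' (GBQ.thm_Main (GBQ.thm_BVw GV.bvw) GBQ.thm_Crt GBQ.thm_Bonf
    GBQ.thm_Esym GBQ.thm_Trunc GBQ.thm_Div) (GBQ.thm_Local (GBQ.thm_G8 GBQ.thm_M8))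
    (GBQ.thm_Mom GBQ.thm_Div) GBQ.thm_Bad

theorem smR : AAN.St_SmR := thm_SmR lowR AAN.asm_sup GBQ.thm_L2 GBQ.thm_Bad AAN.asm_omB

/-- the final theorem -/
theorem fin : ∃ c : ℝ, 0 < c ∧ AAN.FinH c 3 Phi := AAN.fin3 smR

end Pool.Agent.GBR
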